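import Pool.Agent.H47.KS.Defs

/-!
MP_90d669_co: basic lemmas on `aa`, `dg`, `ee`.
-/

set_option autoImplicit false

namespace Pool.Agent.H47.KS

open Finset Pool.Agent.H37.SP

variable {N : ℕ} (G : SimpleGraph (Fin N))

lemma aa_t {x y : Fin N} (h : G.Adj x y) : aa G x y = 1 := by
  classical
  unfold aa
  simp [h]

lemma aa_f {x y : Fin N} (h : ¬ G.Adj x y) : aa G x y = 0 := by
  classical
  unfold aa
  simp [h]

lemma aa_symm (x y : Fin N) : aa G x y = aa G y x := by
  by_cases h : G.Adj x y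
  · rw [aa_t G h, aa_t G h.symm]
  · rw [aa_f G h, aa_f G (fun h' => h h'.symm)]

lemma aa_self (x : Fin N) : aa G x x = 0 := aa_f G (G.loopless.irrefl x)

lemma aa_or (x y : Fin N) : aa G x y = 0 ∨ aa G x y = 1 := by
  by_cases h : G.Adj x y
  · exact Or.inr (aa_t G h)
  · exact Or.inl (aa_f G h)

lemma aa_nonneg (x y : Fin N) : 0 ≤ aa G x y := by
  rcases aa_or G x y with h | h <;> omega

lemma aa_le (x y : Fin N) : aa G x y ≤ 1 := by
  rcases aa_or G x y with h | h <;> omega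

lemma aa_eq_one_iff (x y : Fin N) : aa G x y = 1 ↔ G.Adj x y := by
  by_cases h : G.Adj x y
  · simp [aa_t G h, h]
  · simp [aa_f G h, h]

lemma aa_compl {x y : Fin N} (h : x ≠ y) : aa Gᶜ x y = 1 - aa G x y := by
  by_cases h' : G.Adj x y
  · rw [aa_t G h', aa_f Gᶜ (by rw [SimpleGraph.compl_adj]; tauto)]
    rfl
  · rw [aa_f G h', aa_t Gᶜ (by rw [SimpleGraph.compl_adj]; tauto)]
    rfl

lemma dg_nonneg (A : Finset (Fin N)) (v : Fin N) : 0 ≤ dg G A v :=
  sum_nonneg fun x _ => aa_nonneg G v x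

lemma dg_le (A : Finset (Fin N)) (v : Fin N) : dg G A v ≤ A.card := by
  unfold dg
  refine (sum_le_card_nsmul _ _ 1 fun x _ => aa_le G v x).trans ?_
  simp

lemma dg_union {A B : Finset (Fin N)} (h : Disjoint A B) (v : Fin N) :
    dg G (A ∪ B) v = dg G A v + dg G B v := by
  unfold dg
  exact sum_union h

lemma dg_sdiff {A B : Finset (Fin N)} (h : B ⊆ A) (v : Fin N) :
    dg G (A \ B) v = dg G A v - dg G B v := by
  have h1 := dg_union G (sdiff_disjoint (s := B) (t := A)) v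
  rw [sdiff_union_of_subset h] at h1
  omega

lemma dg_insert {A : Finset (Fin N)} {a : Fin N} (h : a ∉ A) (v : Fin N) :
    dg G (insert a A) v = aa G v a + dg G A v := by
  unfold dg
  exact sum_insert h

lemma dg_mono {A B : Finset (Fin N)} (h : A ⊆ B) (v : Fin N) : dg G A v ≤ dg G B v := by
  unfold dg
  exact sum_le_sum_of_subset_of_nonneg h fun x _ _ => aa_nonneg G v x

/-- double counting of the edges between two sets -/
lemma sum_dg_comm (A B : Finset (Fin N)) : ∑ a ∈ A, dg G B a = ∑ b ∈ B, dg G A b := by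
  unfold dg
  rw [sum_comm]
  exact sum_congr rfl fun b _ => sum_congr rfl fun a _ => aa_symm G a b

lemma dg_compl {A : Finset (Fin N)} {v : Fin N} (h : v ∉ A) :
    dg Gᶜ A v = A.card - dg G A v := by
  unfold dg
  have h1 : ∑ x ∈ A, aa Gᶜ v x = ∑ x ∈ A, (1 - aa G v x) := by
    refine sum_congr rfl fun x hx => aa_compl G ?_
    rintro rfl
    exact h hx
  rw [h1, sum_sub_distrib]
  simp

lemma ee_insert {A : Finset (Fin N)} {a : Fin N} (h : a ∉ A) :
    ee G (insert a A) = ee G A + dg G A a := by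
  classical
  unfold ee ecount dg
  have h1 : {e ∈ G.edgeSet | ∀ v ∈ e, v ∈ insert a A} =
      {e ∈ G.edgeSet | ∀ v ∈ e, v ∈ A} ∪ (fun x => s(a, x)) '' {x | x ∈ A ∧ G.Adj a x} := by
    ext e
    induction e using Sym2.ind with
    | _ x y =>
      simp only [Set.mem_ofPred_eq, Set.mem_union, Set.mem_image, SimpleGraph.mem_edgeSet,
        Sym2.mem_iff, forall_eq_or_imp, forall_eq, mem_insert, Sym2.eq_iff]
      constructor
      · rintro ⟨hxy, hx | hx, hy | hy⟩
        · subst hx; subst hy; exact absurd hxy (G.loopless.irrefl _)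
        · subst hx; exact Or.inr ⟨y, ⟨hy, hxy⟩, Or.inl ⟨rfl, rfl⟩⟩
        · subst hy; exact Or.inr ⟨x, ⟨hx, hxy.symm⟩, Or.inr ⟨rfl, rfl⟩⟩
        · exact Or.inl ⟨hxy, hx, hy⟩
      · rintro (⟨hxy, hx, hy⟩ | ⟨z, ⟨hz, haz⟩, (⟨h1, h2⟩ | ⟨h1, h2⟩)⟩)
        · exact ⟨hxy, Or.inr hx, Or.inr hy⟩
        · subst h1; subst h2; exact ⟨haz, Or.inl rfl, Or.inr hz⟩
        · subst h1; subst h2; exact ⟨haz.symm, Or.inr hz, Or.inl rfl⟩
  have h2 : Disjoint {e ∈ G.edgeSet | ∀ v ∈ e, v ∈ A}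
      ((fun x => s(a, x)) '' {x | x ∈ A ∧ G.Adj a x}) := by
    rw [Set.disjoint_left]
    rintro e ⟨_, he⟩ ⟨x, _, rfl⟩
    exact h (he a (Sym2.mem_mk_left a x))
  have h3 : ((fun x => s(a, x)) '' {x | x ∈ A ∧ G.Adj a x}).ncard =
      (A.filter (fun x => G.Adj a x)).card := by
    rw [Set.ncard_image_of_injective _ (fun x y hxy => by
      have h5 : s(a, x) = s(a, y) := hxy
      rcases Sym2.eq_iff.1 h5 with ⟨_, h6⟩ | ⟨h6, h7⟩
      · exact h6
      · rw [h7, ← h6])]
    rw [← Set.ncard_coe_finset]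
    congr 1
    ext x
    simp
  rw [h1, Set.ncard_union_eq h2 (Set.toFinite _) (Set.toFinite _), h3, Nat.cast_add]
  congr 1
  rw [card_filter, Nat.cast_sum]
  refine sum_congr rfl fun x _ => ?_
  by_cases hx : G.Adj a x
  · simp [aa_t G hx, hx]
  · simp [aa_f G hx, hx]

lemma ee_empty : ee G ∅ = 0 := by
  unfold ee ecount
  have : {e ∈ G.edgeSet | ∀ v ∈ e, v ∈ (∅ : Finset (Fin N))} = ∅ := by
    ext e
    induction e using Sym2.ind with
    | _ x y =>
      simp only [Set.mem_ofPred_eq, Set.mem_empty_iff_false, iff_false, not_and, not_forall]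
      intro _
      exact ⟨x, Sym2.mem_mk_left x y, by simp⟩
  rw [this]
  simp

/-- twice the number of edges is the sum of the degrees -/
lemma two_mul_ee (A : Finset (Fin N)) : 2 * ee G A = ∑ x ∈ A, dg G A x := by
  classical
  induction A using Finset.induction_on with
  | empty => simp [ee_empty]
  | insert a A ha ih =>
    rw [ee_insert G ha, sum_insert ha, dg_insert G ha, aa_self]
    have h1 : ∑ x ∈ A, dg G (insert a A) x = ∑ x ∈ A, aa G x a + ∑ x ∈ A, dg G A x := by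
      rw [← sum_add_distrib]
      exact sum_congr rfl fun x _ => dg_insert G ha x
    have h2 : ∑ x ∈ A, aa G x a = dg G A a := by
      unfold dg
      exact sum_congr rfl fun x _ => aa_symm G x a
    rw [h1, h2, ← ih]
    ring

lemma ee_union {A B : Finset (Fin N)} (h : Disjoint A B) :
    ee G (A ∪ B) = ee G A + ee G B + ∑ b ∈ B, dg G A b := by
  have h0 := two_mul_ee G (A ∪ B)
  rw [sum_union h] at h0
  have h1 : ∑ x ∈ A, dg G (A ∪ B) x = ∑ x ∈ A, dg G A x + ∑ x ∈ A, dg G B x := by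
    rw [← sum_add_distrib]
    exact sum_congr rfl fun x _ => dg_union G h x
  have h2 : ∑ x ∈ B, dg G (A ∪ B) x = ∑ x ∈ B, dg G A x + ∑ x ∈ B, dg G B x := by
    rw [← sum_add_distrib]
    exact sum_congr rfl fun x _ => dg_union G h x
  have h3 := sum_dg_comm G A B
  have h4 := two_mul_ee G A
  have h5 := two_mul_ee G B
  omega

lemma ee_sdiff {C X : Finset (Fin N)} (h : X ⊆ C) :
    ee G (C \ X) = ee G C - ∑ x ∈ X, dg G C x + ee G X := by
  have h1 := ee_union G (sdiff_disjoint (s := X) (t := C))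
  rw [sdiff_union_of_subset h] at h1
  have h2 : ∑ b ∈ X, dg G (C \ X) b = ∑ b ∈ X, dg G C b - ∑ b ∈ X, dg G X b := by
    rw [← sum_sub_distrib]
    exact sum_congr rfl fun x _ => dg_sdiff G h x
  have h3 := two_mul_ee G X
  omega

/-- the exchange formula -/
lemma ee_swap {C X O : Finset (Fin N)} (hX : X ⊆ C) (hO : Disjoint C O) :
    ee G ((C \ X) ∪ O) = ee G C - ∑ x ∈ X, dg G C x + ee G X + ∑ o ∈ O, dg G C o + ee G O
      - ∑ o ∈ O, dg G X o := by
  have hd : Disjoint (C \ X) O := hO.mono_left sdiff_subset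
  rw [ee_union G hd, ee_sdiff G hX]
  have h2 : ∑ b ∈ O, dg G (C \ X) b = ∑ b ∈ O, dg G C b - ∑ b ∈ O, dg G X b := by
    rw [← sum_sub_distrib]
    exact sum_congr rfl fun x _ => dg_sdiff G hX x
  omega

lemma card_swap {C X O : Finset (Fin N)} (hX : X ⊆ C) (hO : Disjoint C O)
    (hc : O.card = X.card) : ((C \ X) ∪ O).card = C.card := by
  rw [card_union_of_disjoint (hO.mono_left sdiff_subset), card_sdiff_of_subset hX, hc]
  have := card_le_card hX
  omega

lemma ee_nonneg (A : Finset (Fin N)) : 0 ≤ ee G A := by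
  unfold ee
  positivity

lemma ee_mono {A B : Finset (Fin N)} (h : A ⊆ B) : ee G A ≤ ee G B := by
  have h1 := ee_union G (disjoint_sdiff (s := A) (t := B))
  rw [union_sdiff_of_subset h] at h1
  have h2 : 0 ≤ ∑ b ∈ B \ A, dg G A b := sum_nonneg fun b _ => dg_nonneg G A b
  have h3 := ee_nonneg G (B \ A)
  omega

lemma two_C2 (z : ℤ) : 2 * C2 z = z * (z - 1) := by
  unfold C2
  have : 2 ∣ z * (z - 1) := by
    rcases Int.even_or_odd z with ⟨w, hw⟩ | ⟨w, hw⟩
    · exact ⟨w * (z - 1), by rw [hw]; ring⟩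
    · exact ⟨z * w, by rw [hw]; ring⟩
  exact Int.mul_ediv_cancel' this

lemma C2_add (a b : ℤ) : C2 (a + b) = C2 a + C2 b + a * b := by
  have h1 := two_C2 (a + b)
  have h2 := two_C2 a
  have h3 := two_C2 b
  have : 2 * C2 (a + b) = 2 * (C2 a + C2 b + a * b) := by
    rw [h1, mul_add, mul_add, h2, h3]
    ring
  omega

lemma C2_refl (z : ℤ) : C2 (1 - z) = C2 z := by
  have h1 := two_C2 (1 - z)
  have h2 := two_C2 z
  have : 2 * C2 (1 - z) = 2 * C2 z := by
    rw [h1, h2]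
    ring
  omega

lemma C2_choose (m : ℕ) : C2 (m : ℤ) = (m.choose 2 : ℕ) := by
  have h1 := two_C2 (m : ℤ)
  have h2 : (m.choose 2) * 2 = m * (m - 1) := by
    rw [Nat.choose_two_right]
    exact Nat.div_mul_cancel (Nat.even_mul_pred_self m).two_dvd
  rcases Nat.eq_zero_or_pos m with rfl | hm
  · simp [C2]
  · have h3 : ((m.choose 2 : ℕ) : ℤ) * 2 = (m : ℤ) * ((m : ℤ) - 1) := by
      have := congrArg (Nat.cast : ℕ → ℤ) h2
      push_cast [Nat.cast_sub hm] at this
      simpa using this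
    omega

/-- edges of the complement -/
lemma ee_compl (A : Finset (Fin N)) : ee Gᶜ A = C2 A.card - ee G A := by
  have h1 := two_mul_ee G A
  have h2 := two_mul_ee Gᶜ A
  have h3 := two_C2 (A.card : ℤ)
  have h4 : ∑ x ∈ A, dg Gᶜ A x = ∑ x ∈ A, (((A.card : ℤ) - 1) - dg G A x) := by
    refine sum_congr rfl fun x hx => ?_
    have e1 : insert x (A.erase x) = A := insert_erase hx
    have e2 : x ∉ A.erase x := notMem_erase x A
    have e3 := dg_insert G e2 x
    have e4 := dg_insert Gᶜ e2 x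
    rw [e1, aa_self] at e3 e4
    have e5 := dg_compl G e2
    rw [card_erase_of_mem hx] at e5
    have e6 : 1 ≤ A.card := card_pos.2 ⟨x, hx⟩
    rw [Nat.cast_sub e6] at e5
    push_cast at e5
    omega
  rw [sum_sub_distrib, sum_const, nsmul_eq_mul] at h4
  omega

lemma ee_le (A : Finset (Fin N)) : ee G A ≤ C2 A.card := by
  have h1 := ee_compl G A
  have h2 := ee_nonneg Gᶜ A
  omega

lemma mem_SS_compl (k : ℕ) (z : ℤ) : z ∈ SS k Gᶜ ↔ C2 k - z ∈ SS k G := by
  constructor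
  · rintro ⟨A, hA, hz⟩
    refine ⟨A, hA, ?_⟩
    have := ee_compl G A
    rw [hA] at this
    omega
  · rintro ⟨A, hA, hz⟩
    refine ⟨A, hA, ?_⟩
    have := ee_compl G A
    rw [hA] at this
    omega

lemma SS_bounds {k : ℕ} {z : ℤ} (hz : z ∈ SS k G) : 0 ≤ z ∧ z ≤ C2 k := by
  obtain ⟨A, hA, rfl⟩ := hz
  exact ⟨ee_nonneg G A, by rw [← hA]; exact ee_le G A⟩

/-- an exchange of `j` vertices changes the number of edges by at most `j k` -/
lemma swap_dist {k : ℕ} {C X O : Finset (Fin N)} (hC : C.card = k) (hX : X ⊆ C)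
    (hO : Disjoint C O) (hc : O.card = X.card) :
    |ee G ((C \ X) ∪ O) - ee G C| ≤ (X.card : ℤ) * k := by
  have h1 := ee_union G (sdiff_disjoint (s := X) (t := C))
  rw [sdiff_union_of_subset hX] at h1
  have hd : Disjoint (C \ X) O := hO.mono_left sdiff_subset
  have h2 := ee_union G hd
  have b1 : ∑ b ∈ X, dg G (C \ X) b ≤ (X.card : ℤ) * (C \ X).card := by
    refine (sum_le_card_nsmul _ _ _ fun b _ => dg_le G (C \ X) b).trans ?_
    rw [nsmul_eq_mul]
  have b2 : ∑ b ∈ O, dg G (C \ X) b ≤ (X.card : ℤ) * (C \ X).card := by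
    refine (sum_le_card_nsmul _ _ _ fun b _ => dg_le G (C \ X) b).trans ?_
    rw [nsmul_eq_mul, hc]
  have b3 : 0 ≤ ∑ b ∈ X, dg G (C \ X) b := sum_nonneg fun b _ => dg_nonneg G _ b
  have b4 : 0 ≤ ∑ b ∈ O, dg G (C \ X) b := sum_nonneg fun b _ => dg_nonneg G _ b
  have b5 := ee_nonneg G X
  have b6 := ee_nonneg G O
  have b7 := ee_le G X
  have b8 := ee_le G O
  rw [hc] at b8
  have b9 := two_C2 (X.card : ℤ)
  have c1 : ((C \ X).card : ℤ) = k - X.card := by
    rw [card_sdiff_of_subset hX, hC, Nat.cast_sub]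
    rw [← hC]; exact card_le_card hX
  rw [c1] at b1 b2
  have b10 : C2 (X.card : ℤ) ≤ (X.card : ℤ) * X.card := by nlinarith [Int.natCast_nonneg X.card]
  rw [abs_le]
  constructor <;> nlinarith

end Pool.Agent.H47.KS
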