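import Pool.Agent.H37.SP.Defs

/-!
MP_90d669_co: an upper bound for the number of realizable k-spectra.  Definitions.
-/

set_option autoImplicit false

namespace Pool.Agent.H47.KS

open Finset Pool.Agent.H37.SP

/-- adjacency as a number -/
noncomputable def aa {N : ℕ} (G : SimpleGraph (Fin N)) (x y : Fin N) : ℤ := by
  classical exact if G.Adj x y then 1 else 0

/-- number of neighbours of `v` in `A` -/
noncomputable def dg {N : ℕ} (G : SimpleGraph (Fin N)) (A : Finset (Fin N)) (v : Fin N) : ℤ :=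
  ∑ x ∈ A, aa G v x

/-- number of edges inside `A` -/
noncomputable def ee {N : ℕ} (G : SimpleGraph (Fin N)) (A : Finset (Fin N)) : ℤ :=
  (ecount G A : ℤ)

/-- the k-spectrum as a set of integers -/
def SS {N : ℕ} (k : ℕ) (G : SimpleGraph (Fin N)) : Set ℤ :=
  {z | ∃ A : Finset (Fin N), A.card = k ∧ ee G A = z}

/-- `z (z - 1) / 2` -/
def C2 (z : ℤ) : ℤ := z * (z - 1) / 2

/-- quadratic progression `b + g t + c C2 t`, `0 ≤ t < x` -/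
def prog (b g c : ℤ) (x : ℕ) : Finset ℤ :=
  (range x).image (fun t : ℕ => b + g * (t : ℤ) + c * C2 (t : ℤ))

/-- unions of `s` quadratic progressions with `x` terms -/
def TP (s x : ℕ) : Set (Finset ℤ) :=
  {T | ∃ b g c : Fin s → ℤ, (∀ i, |c i| ≤ 1) ∧
    T = (univ : Finset (Fin s)).biUnion (fun i => prog (b i) (g i) (c i) x)}

/-- sets of sums of `p` out of `2 p` numbers, shifted -/
def TA (p : ℕ) : Set (Finset ℤ) :=
  {T | ∃ (b : ℤ) (w : Fin (2 * p) → ℤ),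
    T = ((univ : Finset (Fin (2 * p))).powersetCard p).image (fun P => b + ∑ i ∈ P, w i)}

/-- parameters -/
structure Par where
  k : ℕ
  nu : ℕ
  x0 : ℕ
  d : ℕ
  p : ℕ
  t1 : ℕ
  L1 : ℕ
  t2 : ℕ
  L2 : ℕ
  N1 : ℕ
  m : ℕ
  q : ℕ
  D : ℕ

namespace Par

/-- maximal number of exchanged vertices -/
def n (P : Par) : ℕ := 8 * P.nu
/-- number of exceptions -/
def E (P : Par) : ℕ := (2 * P.n + 1) * P.x0
/-- coarse number of exceptions -/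
def u (P : Par) : ℕ := (3 * P.n + 2) * P.E
/-- size of the exact part of the k-set -/
def N2 (P : Par) : ℕ := 2 * P.d ^ 2 * P.n
/-- gap -/
def g0 (P : Par) : ℕ := 16 * P.n ^ 3
/-- half width of the windows for small gap -/
def H (P : Par) : ℕ := P.n * P.g0 + P.n ^ 2
/-- flatness threshold -/
def g1 (P : Par) : ℕ := 2 * P.H

/-- the inequalities between the parameters used in the local part -/
structure Ok (P : Par) : Prop where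
  k2 : 2 ≤ P.k
  nu1 : 1 ≤ P.nu
  d1 : 1 ≤ P.d
  x2 : 2 ≤ P.x0
  xnu : P.x0 ≤ 2 * P.nu
  p1 : 1 ≤ P.p
  pn : P.p ≤ P.n
  tp : P.t1 ≤ P.p ^ 2 + 1
  tx : 2 * P.t1 ≤ P.nu * P.x0
  td : P.t1 + P.d ^ 2 ≤ 4 * P.nu * P.d
  dd : P.d ^ 2 + 1 ≤ 4 * P.nu
  L1 : 4 * P.n * P.k ≤ P.L1
  t2 : 2 * P.t2 ≤ P.x0
  L2 : P.n * P.g1 + P.H ≤ P.L2
  N1 : 3 * P.u + 4 * P.n * P.E + 2 * P.N2 * P.E + 4 * P.n + 4 * P.E + 4 ≤ P.N1
  kN : P.N2 + 4 * P.n + 4 ≤ P.k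
  m : 2 * P.p * (P.p + 1) * P.N1 + 1 ≤ P.m
  aq : 20 * (P.D + 3) < (P.q + 1) * P.k
  mq : 10 * P.m * (P.q + 1) ≤ P.k
  av : 10 * P.k + 25 * (P.D + 3) < P.k ^ 2
  fin : 1200 * P.d * (2 * P.n * P.k + 2 * P.g0) ≤ P.n * P.k * P.g0

end Par

/-- large scale richness: `S` contains near `y` a large set which is cheap to describe -/
def R1 (P : Par) (S : Set ℤ) (y : ℤ) : Prop :=
  ∃ T : Finset ℤ, (T ∈ TA P.p ∨ T ∈ TP P.nu P.x0 ∨ T ∈ TP P.d (4 * P.nu)) ∧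
    (∀ z ∈ T, z ∈ S ∧ |z - y| ≤ (P.L1 : ℤ)) ∧ P.t1 ≤ T.card

/-- small scale richness -/
def R2 (P : Par) (S : Set ℤ) (y : ℤ) : Prop :=
  ∃ T : Finset ℤ, T ∈ TP 1 P.x0 ∧
    (∀ z ∈ T, z ∈ S ∧ |z - y| ≤ (P.L2 : ℤ)) ∧ P.t2 ≤ T.card

/-- a k-set `C` with a clique `K` and an independent set `I` outside, all vertices of `K` (of `I`)
with the same number of neighbours in `C` -/
structure Base (P : Par) {N : ℕ} (G : SimpleGraph (Fin N)) (C K I : Finset (Fin N))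
    (wK wI : ℤ) : Prop where
  cC : C.card = P.k
  cK : K.card = P.N1
  cI : I.card = P.N1
  dKC : Disjoint K C
  dIC : Disjoint I C
  dKI : Disjoint K I
  clq : ∀ a ∈ K, ∀ b ∈ K, a ≠ b → aa G a b = 1
  ind : ∀ a ∈ I, ∀ b ∈ I, a ≠ b → aa G a b = 0
  wtK : ∀ a ∈ K, dg G C a = wK
  wtI : ∀ a ∈ I, dg G C a = wI

/-- exact configuration: as `Base`, moreover all pairs (`Z`, `K`), (`Z`, `I`), (`K`, `I`) are
homogeneous -/
structure Exact (P : Par) {N : ℕ} (G : SimpleGraph (Fin N)) (C K I Z : Finset (Fin N))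
    (wK wI : ℤ) (sK sI : Fin N → ℤ) (h : ℤ) : Prop where
  cC : C.card = P.k
  cK : K.card = P.n
  cI : I.card = P.n
  ZC : Z ⊆ C
  dKC : Disjoint K C
  dIC : Disjoint I C
  dKI : Disjoint K I
  clq : ∀ a ∈ K, ∀ b ∈ K, a ≠ b → aa G a b = 1
  ind : ∀ a ∈ I, ∀ b ∈ I, a ≠ b → aa G a b = 0
  wtK : ∀ a ∈ K, dg G C a = wK
  wtI : ∀ a ∈ I, dg G C a = wI
  tK : ∀ x, sK x = 0 ∨ sK x = 1
  tI : ∀ x, sI x = 0 ∨ sI x = 1
  th : h = 0 ∨ h = 1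
  ZK : ∀ a ∈ K, ∀ x ∈ Z, aa G a x = sK x
  ZI : ∀ a ∈ I, ∀ x ∈ Z, aa G a x = sI x
  KI : ∀ a ∈ K, ∀ c ∈ I, aa G a c = h

/-- slope of the progression of `Y` -/
def slp {N : ℕ} (wK wI : ℤ) (sK sI : Fin N → ℤ) (Y : Finset (Fin N)) : ℤ :=
  wK - wI + ∑ x ∈ Y, sI x - ∑ x ∈ Y, sK x

/-- offset of the progression of `Y` -/
noncomputable def off {N : ℕ} (G : SimpleGraph (Fin N)) (C : Finset (Fin N)) (wK wI : ℤ)
    (sK sI : Fin N → ℤ) (Y : Finset (Fin N)) : ℤ :=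
  ee G C - ∑ x ∈ Y, dg G C x + ee G Y + (Y.card : ℤ) * (wI - ∑ x ∈ Y, sI x)
    - C2 (slp wK wI sK sI Y)

/-- the conclusion of the local part: a quadratic progression with the offset of `y` -/
def Prg (P : Par) (S : Set ℤ) (y : ℤ) : Prop :=
  ∃ h b g l0 : ℤ, (h = 1 ∨ h = -1) ∧ (P.g0 : ℤ) ≤ |g| ∧ y = b + h * C2 g ∧
    ∀ l : ℤ, l0 ≤ l → l < l0 + 4 * P.nu →
      (P.g0 : ℤ) ≤ 2 * |l| ∧ b + h * C2 l ∈ S ∧ |b + h * C2 l - y| ≤ (P.n * P.k : ℕ)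

/-- the middle part of `[0, k (k - 1) / 2]` -/
def inJ (k : ℕ) (y : ℤ) : Prop := 22 * (k : ℤ) ^ 2 ≤ 100 * y ∧ 100 * y ≤ 28 * (k : ℤ) ^ 2

end Pool.Agent.H47.KS
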