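import Pool.Agent.H47.KS.Targets

/-!
MP_90d669_co: passage to the complement.
-/

set_option autoImplicit false

namespace Pool.Agent.H47.KS

open Finset Pool.Agent.H37.SP

lemma Base.compl {P : Par} {N : ℕ} {G : SimpleGraph (Fin N)} {C K I : Finset (Fin N)}
    {wK wI : ℤ} (h : Base P G C K I wK wI) :
    Base P Gᶜ C I K (P.k - wI) (P.k - wK) where
  cC := h.cC
  cK := h.cI
  cI := h.cK
  dKC := h.dIC
  dIC := h.dKC
  dKI := h.dKI.symm
  clq := fun a ha b hb hab => by rw [aa_compl G hab, h.ind a ha b hb hab]; rfl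
  ind := fun a ha b hb hab => by rw [aa_compl G hab, h.clq a ha b hb hab]; rfl
  wtK := fun a ha => by
    rw [dg_compl G (disjoint_left.1 h.dIC ha), h.wtI a ha, h.cC]
  wtI := fun a ha => by
    rw [dg_compl G (disjoint_left.1 h.dKC ha), h.wtK a ha, h.cC]

lemma Exact.compl {P : Par} {N : ℕ} {G : SimpleGraph (Fin N)} {C K I Z : Finset (Fin N)}
    {wK wI : ℤ} {sK sI : Fin N → ℤ} {h : ℤ} (H : Exact P G C K I Z wK wI sK sI h) :
    Exact P Gᶜ C I K Z (P.k - wI) (P.k - wK) (fun x => 1 - sI x) (fun x => 1 - sK x) (1 - h) where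
  cC := H.cC
  cK := H.cI
  cI := H.cK
  ZC := H.ZC
  dKC := H.dIC
  dIC := H.dKC
  dKI := H.dKI.symm
  clq := fun a ha b hb hab => by rw [aa_compl G hab, H.ind a ha b hb hab]; rfl
  ind := fun a ha b hb hab => by rw [aa_compl G hab, H.clq a ha b hb hab]; rfl
  wtK := fun a ha => by
    rw [dg_compl G (disjoint_left.1 H.dIC ha), H.wtI a ha, H.cC]
  wtI := fun a ha => by
    rw [dg_compl G (disjoint_left.1 H.dKC ha), H.wtK a ha, H.cC]
  tK := fun x => by rcases H.tI x with h' | h' <;> simp [h']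
  tI := fun x => by rcases H.tK x with h' | h' <;> simp [h']
  th := by rcases H.th with h' | h' <;> simp [h']
  ZK := fun a ha x hx => by
    have hne : a ≠ x := by
      rintro rfl
      exact disjoint_left.1 H.dIC ha (H.ZC hx)
    rw [aa_compl G hne, H.ZI a ha x hx]
  ZI := fun a ha x hx => by
    have hne : a ≠ x := by
      rintro rfl
      exact disjoint_left.1 H.dKC ha (H.ZC hx)
    rw [aa_compl G hne, H.ZK a ha x hx]
  KI := fun a ha c hc => by
    have hne : a ≠ c := by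
      rintro rfl
      exact disjoint_left.1 H.dKI hc ha
    rw [aa_compl G hne, aa_symm G a c, H.KI c hc a ha]

lemma prog_neg (b g c k : ℤ) (x : ℕ) :
    (prog b g c x).image (fun z => k - z) = prog (k - b) (-g) (-c) x := by
  unfold prog
  rw [image_image]
  refine image_congr fun t _ => ?_
  simp only [Function.comp]
  ring

lemma TP_neg {s x : ℕ} {T : Finset ℤ} (k : ℤ) (h : T ∈ TP s x) :
    T.image (fun z => k - z) ∈ TP s x := by
  obtain ⟨b, g, c, hc, rfl⟩ := h
  refine ⟨fun i => k - b i, fun i => -g i, fun i => -c i, fun i => by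
    simpa using hc i, ?_⟩
  rw [biUnion_image]
  refine biUnion_congr rfl fun i _ => ?_
  exact prog_neg (b i) (g i) (c i) k x

lemma TA_neg {p : ℕ} {T : Finset ℤ} (k : ℤ) (h : T ∈ TA p) :
    T.image (fun z => k - z) ∈ TA p := by
  obtain ⟨b, w, rfl⟩ := h
  refine ⟨k - b, fun i => -w i, ?_⟩
  rw [image_image]
  refine image_congr fun Q _ => ?_
  simp only [Function.comp, sum_neg_distrib]
  ring

lemma card_image_neg (T : Finset ℤ) (k : ℤ) : (T.image (fun z => k - z)).card = T.card :=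
  card_image_of_injective _ (fun a b h => by
    have : k - a = k - b := h
    omega)

lemma R1_compl {P : Par} {N : ℕ} {G : SimpleGraph (Fin N)} {y : ℤ}
    (h : R1 P (SS P.k Gᶜ) (C2 P.k - y)) : R1 P (SS P.k G) y := by
  obtain ⟨T, hT, h1, h2⟩ := h
  refine ⟨T.image (fun z => C2 P.k - z), ?_, ?_, by rw [card_image_neg]; exact h2⟩
  · rcases hT with hT | hT | hT
    · exact Or.inl (TA_neg _ hT)
    · exact Or.inr (Or.inl (TP_neg _ hT))
    · exact Or.inr (Or.inr (TP_neg _ hT))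
  · intro z hz
    obtain ⟨z', hz', rfl⟩ := mem_image.1 hz
    obtain ⟨h3, h4⟩ := h1 z' hz'
    refine ⟨(mem_SS_compl G P.k z').1 h3, ?_⟩
    have : C2 (P.k : ℤ) - z' - y = -(z' - (C2 P.k - y)) := by ring
    rw [this, abs_neg]
    exact h4

lemma R2_compl {P : Par} {N : ℕ} {G : SimpleGraph (Fin N)} {y : ℤ}
    (h : R2 P (SS P.k Gᶜ) (C2 P.k - y)) : R2 P (SS P.k G) y := by
  obtain ⟨T, hT, h1, h2⟩ := h
  refine ⟨T.image (fun z => C2 P.k - z), TP_neg _ hT, ?_, by rw [card_image_neg]; exact h2⟩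
  intro z hz
  obtain ⟨z', hz', rfl⟩ := mem_image.1 hz
  obtain ⟨h3, h4⟩ := h1 z' hz'
  refine ⟨(mem_SS_compl G P.k z').1 h3, ?_⟩
  have : C2 (P.k : ℤ) - z' - y = -(z' - (C2 P.k - y)) := by ring
  rw [this, abs_neg]
  exact h4

lemma Prg_compl {P : Par} {N : ℕ} {G : SimpleGraph (Fin N)} {y : ℤ}
    (H : Prg P (SS P.k Gᶜ) (C2 P.k - y)) : Prg P (SS P.k G) y := by
  obtain ⟨h, b, g, l0, hh, hg, hy, H⟩ := H
  refine ⟨-h, C2 P.k - b, g, l0, by rcases hh with h' | h' <;> simp [h'], hg, by linarith, ?_⟩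
  intro l h1 h2
  obtain ⟨h3, h4, h5⟩ := H l h1 h2
  have e1 : C2 (P.k : ℤ) - b + -h * C2 l = C2 P.k - (b + h * C2 l) := by ring
  refine ⟨h3, ?_, ?_⟩
  · rw [e1]
    exact (mem_SS_compl G P.k _).1 h4
  · rw [e1]
    have : C2 (P.k : ℤ) - (b + h * C2 l) - y = -(b + h * C2 l - (C2 P.k - y)) := by ring
    rw [this, abs_neg]
    exact h5

end Pool.Agent.H47.KS
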