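import Pool.Agent.H47.KS.Basic

/-!
MP_90d669_co: an upper bound for the number of realizable k-spectra.  Targets of the board
ksu_modules.
-/

set_option autoImplicit false

namespace Pool.Agent.H47.KS

open Finset Pool.Agent.H37.SP

/-- `p ^ 2 + 1` sums of `p` out of `2 p` increasing numbers -/
def T_SUM : Prop := ∀ (p : ℕ) (w : Fin (2 * p) → ℤ), 1 ≤ p → StrictMono w →
  p ^ 2 + 1 ≤ (((univ : Finset (Fin (2 * p))).powersetCard p).image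
    (fun Q => ∑ i ∈ Q, w i)).card

/-- arithmetic progression from two popular degrees into a homogeneous set -/
def T_APR : Prop := ∀ (N : ℕ) (G : SimpleGraph (Fin N)) (R K : Finset (Fin N)) (q x0 : ℕ)
  (e v v' : ℤ), Disjoint R K → (∀ a ∈ K, ∀ b ∈ K, a ≠ b → aa G a b = e) → x0 ≤ q →
  x0 + q ≤ K.card → v ≠ v' →
  x0 ≤ (K.filter (fun a => dg G R a = v)).card → x0 ≤ (K.filter (fun a => dg G R a = v')).card →
  ∃ b g : ℤ, g ≠ 0 ∧ ∀ z ∈ prog b g 0 x0, ∃ Q ⊆ K, Q.card = q ∧ ee G (R ∪ Q) = z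

/-- a function with few values and at most one popular value is almost constant -/
def T_AE : Prop := ∀ (N : ℕ) (A : Finset (Fin N)) (f : Fin N → ℤ) (lo : ℤ) (v x0 : ℕ),
  (∀ a ∈ A, lo ≤ f a ∧ f a < lo + v) → v * x0 < A.card →
  (∀ z z' : ℤ, z ≠ z' → ¬ (x0 ≤ (A.filter (fun a => f a = z)).card ∧
    x0 ≤ (A.filter (fun a => f a = z')).card)) →
  ∃ z : ℤ, (A.filter (fun a => f a ≠ z)).card ≤ v * x0

/-- homogeneity, first form -/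
def T_HOM : Prop := ∀ (N : ℕ) (G : SimpleGraph (Fin N)) (A B : Finset (Fin N)) (f E u : ℕ),
  1 ≤ f → f + 1 ≤ B.card → (2 * f + 1) * E ≤ u → 2 * u + 2 * E < A.card →
  (∀ F ⊆ B, F.card = f → ∃ z : ℤ, (A.filter (fun a => dg G F a ≠ z)).card ≤ E) →
  ∃ A' ⊆ A, A.card ≤ A'.card + u ∧ ∃ s : Fin N → ℤ, (∀ x, s x = 0 ∨ s x = 1) ∧
    ∀ c ∈ B, (A'.filter (fun a => aa G a c ≠ s c)).card ≤ 2 * E

/-- homogeneity, second form -/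
def T_HOP : Prop := ∀ (N : ℕ) (G : SimpleGraph (Fin N)) (A B : Finset (Fin N))
  (Φ : Fin N → ℤ) (f f' E u : ℕ),
  1 ≤ f → f + 1 ≤ B.card → 1 ≤ f' → f' + 1 ≤ B.card → f ≠ f' →
  2 * (f + f' + 1) * E ≤ u → 2 * u + 2 * E < A.card →
  (∀ F ⊆ B, F.card = f → ∃ z : ℤ, (A.filter (fun a => dg G F a - Φ a ≠ z)).card ≤ E) →
  (∀ F ⊆ B, F.card = f' → ∃ z : ℤ, (A.filter (fun a => dg G F a - Φ a ≠ z)).card ≤ E) →
  ∃ A' ⊆ A, A.card ≤ A'.card + u ∧ ∃ s : Fin N → ℤ, (∀ x, s x = 0 ∨ s x = 1) ∧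
    ∀ c ∈ B, (A'.filter (fun a => aa G a c ≠ s c)).card ≤ 2 * E

/-- independent set in a sparse graph -/
def T_TUR : Prop := ∀ (N : ℕ) (G : SimpleGraph (Fin N)) (A : Finset (Fin N)) (E0 q m : ℕ),
  ee G A ≤ (E0 : ℤ) → 4 * E0 < (q + 1) * A.card → 2 * m * (q + 1) ≤ A.card →
  ∃ I ⊆ A, I.card = m ∧ ∀ x ∈ I, ∀ y ∈ I, aa G x y = 0

/-- a clique in `A` outside `C` -/
def T_ANC : Prop := ∀ (P : Par) (N : ℕ) (G : SimpleGraph (Fin N)) (A C : Finset (Fin N)), P.Ok →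
  A.card = P.k → C.card = P.k → C2 P.k - (P.D + 3) ≤ ee G A →
  100 * ee G C ≤ 28 * (P.k : ℤ) ^ 2 →
  ∃ K ⊆ A, Disjoint K C ∧ K.card = P.m ∧ ∀ x ∈ K, ∀ y ∈ K, x ≠ y → aa G x y = 1

/-- many vertices of a homogeneous set have the same number of neighbours in `C` -/
def T_FEW : Prop := ∀ (P : Par) (N : ℕ) (G : SimpleGraph (Fin N)) (C K : Finset (Fin N)) (e : ℤ),
  P.Ok → C.card = P.k → Disjoint K C → (∀ a ∈ K, ∀ b ∈ K, a ≠ b → aa G a b = e) →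
  2 * P.p * (P.p + 1) * P.N1 ≤ K.card → ¬ R1 P (SS P.k G) (ee G C) →
  ∃ K1 ⊆ K, K1.card = P.N1 ∧ ∃ w : ℤ, ∀ a ∈ K1, dg G C a = w

/-- number of terms of a progression -/
def T_PCD : Prop := ∀ (b g c : ℤ) (x : ℕ),
  (g ≠ 0 → (prog b g 0 x).card = x) ∧ ((c = 1 ∨ c = -1) → x ≤ 2 * (prog b g c x).card)

/-- small gap: an arithmetic progression or an exact configuration -/
def T_CSX : Prop := ∀ (P : Par) (N : ℕ) (G : SimpleGraph (Fin N)) (C K I X : Finset (Fin N))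
  (wK wI : ℤ), P.Ok → Base P G C K I wK wI → X ⊆ C → 4 * P.nu ≤ X.card → X.card ≤ P.n →
  (∃ b g : ℤ, g ≠ 0 ∧ ∀ z ∈ prog b g 0 P.x0, ∃ K' ⊆ K, ∃ I' ⊆ I,
    K'.card + I'.card = X.card ∧ ee G ((C \ X) ∪ (K' ∪ I')) = z) ∨
  ∃ K3 ⊆ K, ∃ I3 ⊆ I, P.n ≤ K3.card ∧ I3.card = P.x0 ∧ ∃ s s' h : ℤ, (h = 0 ∨ h = 1) ∧
    (∀ a ∈ K3, dg G X a = s) ∧ (∀ c ∈ I3, dg G X c = s') ∧ ∀ a ∈ K3, ∀ c ∈ I3, aa G a c = h

/-- the quadratic progression of the exact configuration -/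
def T_CSP : Prop := ∀ (P : Par) (N : ℕ) (G : SimpleGraph (Fin N)) (C K I X K3 I3 : Finset (Fin N))
  (wK wI s s' h : ℤ), P.Ok → Base P G C K I wK wI → X ⊆ C → 4 * P.nu ≤ X.card → X.card ≤ P.n →
  K3 ⊆ K → I3 ⊆ I → P.n ≤ K3.card → I3.card = P.x0 → (h = 0 ∨ h = 1) →
  (∀ a ∈ K3, dg G X a = s) → (∀ c ∈ I3, dg G X c = s') → (∀ a ∈ K3, ∀ c ∈ I3, aa G a c = h) →
  ∃ b g c : ℤ, (c = 1 ∨ c = -1) ∧ ∀ z ∈ prog b g c P.x0, ∃ K' ⊆ K, ∃ I' ⊆ I,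
    K'.card + I'.card = X.card ∧ ee G ((C \ X) ∪ (K' ∪ I')) = z

/-- windows, small gap -/
def T_WS : Prop := ∀ (P : Par) (N : ℕ) (G : SimpleGraph (Fin N)) (C K I X K' I' : Finset (Fin N))
  (wK wI : ℤ), P.Ok → Base P G C K I wK wI → |wK - wI| < (P.g0 : ℤ) → X ⊆ C → X.card ≤ P.n →
  K' ⊆ K → I' ⊆ I → K'.card + I'.card = X.card →
  |ee G ((C \ X) ∪ (K' ∪ I')) - (ee G C + ∑ x ∈ X, (wK - dg G C x))| ≤ (P.H : ℤ)

/-- small gap: a long progression in the window of `X` -/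
def T_CS1 : Prop := ∀ (P : Par) (N : ℕ) (G : SimpleGraph (Fin N)) (C K I X : Finset (Fin N))
  (wK wI : ℤ), P.Ok → Base P G C K I wK wI → |wK - wI| < (P.g0 : ℤ) → X ⊆ C →
  4 * P.nu ≤ X.card → X.card ≤ P.n →
  ∃ b g c : ℤ, |c| ≤ 1 ∧ P.x0 ≤ 2 * (prog b g c P.x0).card ∧ ∀ z ∈ prog b g c P.x0,
    z ∈ SS P.k G ∧ |z - (ee G C + ∑ x ∈ X, (wK - dg G C x))| ≤ (P.H : ℤ) ∧
    |z - ee G C| ≤ ((P.n * P.k : ℕ) : ℤ)

/-- small gap: rich -/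
def T_CSR : Prop := ∀ (P : Par) (N : ℕ) (G : SimpleGraph (Fin N)) (C K I : Finset (Fin N))
  (wK wI : ℤ), P.Ok → Base P G C K I wK wI → |wK - wI| < (P.g0 : ℤ) →
  R1 P (SS P.k G) (ee G C) ∨ R2 P (SS P.k G) (ee G C)

/-- position of the window number `i`, large gap -/
noncomputable def posL (P : Par) {N : ℕ} (G : SimpleGraph (Fin N)) (C X : Finset (Fin N))
    (wK wI : ℤ) (i : ℕ) : ℤ :=
  ee G (C \ X) + ((P.n : ℤ) - i) * wK + (i : ℤ) * wI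

/-- the index `i` is good: no arithmetic progression in its window -/
def Good (P : Par) {N : ℕ} (G : SimpleGraph (Fin N)) (C X : Finset (Fin N))
    (wK wI : ℤ) (i : ℕ) : Prop :=
  ¬ ∃ b g : ℤ, g ≠ 0 ∧ ∀ z ∈ prog b g 0 P.x0, z ∈ SS P.k G ∧
    |z - posL P G C X wK wI i| ≤ (P.n : ℤ) ^ 2

/-- windows, large gap -/
def T_WL : Prop := ∀ (P : Par) (N : ℕ) (G : SimpleGraph (Fin N)) (C K I X K' I' : Finset (Fin N))
  (wK wI : ℤ) (i : ℕ), P.Ok → Base P G C K I wK wI → X ⊆ C → X.card = P.n → i ≤ P.n →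
  K' ⊆ K → I' ⊆ I → K'.card = P.n - i → I'.card = i →
  ((C \ X) ∪ (K' ∪ I')).card = P.k ∧
    |ee G ((C \ X) ∪ (K' ∪ I')) - posL P G C X wK wI i| ≤ (P.n : ℤ) ^ 2

/-- two good indices -/
def T_LGD : Prop := ∀ (P : Par) (N : ℕ) (G : SimpleGraph (Fin N)) (C K I X : Finset (Fin N))
  (wK wI : ℤ), P.Ok → Base P G C K I wK wI → (P.g0 : ℤ) ≤ |wK - wI| →
  ¬ R1 P (SS P.k G) (ee G C) → X ⊆ C → X.card = P.n →
  ∃ i j : ℕ, i < j ∧ 2 * P.nu ≤ i ∧ j ≤ 6 * P.nu ∧ Good P G C X wK wI i ∧ Good P G C X wK wI j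

/-- a good index makes the degrees of the vertices of `K` almost constant -/
def T_LCK : Prop := ∀ (P : Par) (N : ℕ) (G : SimpleGraph (Fin N)) (C K I X : Finset (Fin N))
  (wK wI : ℤ) (i : ℕ), P.Ok → Base P G C K I wK wI → X ⊆ C → X.card = P.n →
  2 * P.nu ≤ i → i ≤ 6 * P.nu → Good P G C X wK wI i → ∀ F ⊆ I, F.card = i →
  ∃ z : ℤ, (K.filter (fun a => dg G F a - dg G X a ≠ z)).card ≤ P.E

/-- large gap: vertices of `I` against `K` -/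
def T_LKA : Prop := ∀ (P : Par) (N : ℕ) (G : SimpleGraph (Fin N)) (C K I : Finset (Fin N))
  (wK wI : ℤ), P.Ok → Base P G C K I wK wI → (P.g0 : ℤ) ≤ |wK - wI| →
  ¬ R1 P (SS P.k G) (ee G C) →
  ∃ K' ⊆ K, P.N1 ≤ K'.card + P.u ∧ ∃ s : Fin N → ℤ, (∀ x, s x = 0 ∨ s x = 1) ∧
    ∀ c ∈ I, (K'.filter (fun a => aa G a c ≠ s c)).card ≤ 2 * P.E

/-- large gap: vertices of `C` and of `I` against `K` -/
def T_LKB : Prop := ∀ (P : Par) (N : ℕ) (G : SimpleGraph (Fin N)) (C K I : Finset (Fin N))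
  (wK wI : ℤ), P.Ok → Base P G C K I wK wI → (P.g0 : ℤ) ≤ |wK - wI| →
  ¬ R1 P (SS P.k G) (ee G C) →
  ∃ K' ⊆ K, P.N1 ≤ K'.card + 2 * P.u + 2 * P.n * P.E ∧
    ∃ s : Fin N → ℤ, (∀ x, s x = 0 ∨ s x = 1) ∧
    ∀ z ∈ C ∪ I, (K'.filter (fun a => aa G a z ≠ s z)).card ≤ 2 * P.E

/-- exact configuration -/
def T_LX : Prop := ∀ (P : Par) (N : ℕ) (G : SimpleGraph (Fin N)) (C K I Z K' I' : Finset (Fin N))
  (wK wI : ℤ) (s s' : Fin N → ℤ), P.Ok → Base P G C K I wK wI → Z ⊆ C → Z.card = P.N2 →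
  K' ⊆ K → I' ⊆ I → P.N1 ≤ K'.card + 2 * P.u + 2 * P.n * P.E →
  P.N1 ≤ I'.card + 2 * P.u + 2 * P.n * P.E →
  (∀ x, s x = 0 ∨ s x = 1) → (∀ x, s' x = 0 ∨ s' x = 1) →
  (∀ z ∈ C ∪ I, (K'.filter (fun a => aa G a z ≠ s z)).card ≤ 2 * P.E) →
  (∀ z ∈ C ∪ K, (I'.filter (fun a => aa G a z ≠ s' z)).card ≤ 2 * P.E) →
  ∃ K3 I3 : Finset (Fin N), ∃ h : ℤ, Exact P G C K3 I3 Z wK wI s s' h

/-- values of the exact configuration, `h = 0` -/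
def T_VAL : Prop := ∀ (P : Par) (N : ℕ) (G : SimpleGraph (Fin N)) (C K I Z Y : Finset (Fin N))
  (wK wI : ℤ) (sK sI : Fin N → ℤ) (t : ℕ), P.Ok → Exact P G C K I Z wK wI sK sI 0 → Y ⊆ Z →
  Y.card ≤ P.n → t ≤ Y.card →
  off G C wK wI sK sI Y + C2 ((t : ℤ) + slp wK wI sK sI Y) ∈ SS P.k G ∧
  |off G C wK wI sK sI Y + C2 ((t : ℤ) + slp wK wI sK sI Y) - ee G C| ≤ ((P.n * P.k : ℕ) : ℤ)

/-- the offset is a quadratic function -/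
def T_QF : Prop := ∀ (N : ℕ) (G : SimpleGraph (Fin N)) (C : Finset (Fin N)) (wK wI : ℤ)
  (sK sI : Fin N → ℤ), ∃ (a : Fin N → ℤ) (b : Fin N → Fin N → ℤ), (∀ x y, b x y = b y x) ∧
  ∀ Y : Finset (Fin N), 2 * (off G C wK wI sK sI Y - off G C wK wI sK sI ∅) =
    ∑ x ∈ Y, a x + ∑ x ∈ Y, ∑ y ∈ Y, b x y

/-- quadratic functions with few values -/
def T_QUA : Prop := ∀ (N d nu : ℕ) (Z : Finset (Fin N)) (f : Finset (Fin N) → ℤ)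
  (a : Fin N → ℤ) (b : Fin N → Fin N → ℤ), 1 ≤ d → 1 ≤ nu → d ^ 2 + 1 ≤ 4 * nu →
  Z.card = 2 * d ^ 2 * (8 * nu) → (∀ x y, b x y = b y x) →
  (∀ Y ⊆ Z, 2 * f Y = ∑ x ∈ Y, a x + ∑ x ∈ Y, ∑ y ∈ Y, b x y) →
  (∀ T : Finset (Finset (Fin N)), (∀ Y ∈ T, Y ⊆ Z ∧ 4 * nu ≤ Y.card ∧ Y.card ≤ 8 * nu) →
    (T.image f).card < d) →
  ∃ Y ⊆ Z, Y.card = 4 * nu ∧ f Y = 0

/-- two quadratic progressions with different offsets have at most two common elements -/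
def T_INT : Prop := ∀ (L : ℕ) (G G' b b' : ℤ), b ≠ b' →
  (∀ l : ℤ, G ≤ l → l < G + L → 16 * (L : ℤ) ^ 3 < |l|) →
  (∀ l : ℤ, G' ≤ l → l < G' + L → 16 * (L : ℤ) ^ 3 < |l|) →
  (((Finset.Ico G (G + L)).image (fun l => b + C2 l)) ∩
    ((Finset.Ico G' (G' + L)).image (fun l => b' + C2 l))).card ≤ 2

/-- the union of quadratic progressions with different offsets -/
def T_UNI : Prop := ∀ (d L : ℕ) (b G : Fin d → ℤ), Function.Injective b →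
  (∀ i, ∀ l : ℤ, G i ≤ l → l < G i + L → 16 * (L : ℤ) ^ 3 < |l|) →
  d * L ≤ ((univ : Finset (Fin d)).biUnion
    (fun i => (Finset.Ico (G i) (G i + L)).image (fun l => b i + C2 l))).card + d ^ 2

/-- many offsets: rich -/
def T_OFF : Prop := ∀ (P : Par) (N : ℕ) (G : SimpleGraph (Fin N)) (C K I Z : Finset (Fin N))
  (wK wI : ℤ) (sK sI : Fin N → ℤ) (T : Finset (Finset (Fin N))), P.Ok →
  Exact P G C K I Z wK wI sK sI 0 → (P.g0 : ℤ) ≤ |wK - wI| →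
  (∀ Y ∈ T, Y ⊆ Z ∧ 4 * P.nu ≤ Y.card ∧ Y.card ≤ 8 * P.nu) →
  P.d ≤ (T.image (off G C wK wI sK sI)).card → R1 P (SS P.k G) (ee G C)

/-- large gap: a quadratic progression through `y`, or rich -/
def T_CLM : Prop := ∀ (P : Par) (N : ℕ) (G : SimpleGraph (Fin N)) (C K I : Finset (Fin N))
  (wK wI : ℤ), P.Ok → Base P G C K I wK wI → (P.g0 : ℤ) ≤ |wK - wI| →
  R1 P (SS P.k G) (ee G C) ∨ Prg P (SS P.k G) (ee G C)

/-- the local part -/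
def T_LOC : Prop := ∀ (P : Par) (N : ℕ) (G : SimpleGraph (Fin N)) (A0 A1 C : Finset (Fin N)),
  P.Ok → A0.card = P.k → A1.card = P.k → C.card = P.k → ee G A0 ≤ P.D + 3 →
  C2 P.k - (P.D + 3) ≤ ee G A1 → inJ P.k (ee G C) →
  R1 P (SS P.k G) (ee G C) ∨ R2 P (SS P.k G) (ee G C) ∨ Prg P (SS P.k G) (ee G C)

/-- values `b + h C2 g` with `|g| ≥ g0` in a short interval -/
def T_CNY : Prop := ∀ (g0 l : ℕ) (b h z : ℤ) (Y : Finset ℤ), 1 ≤ g0 → (h = 1 ∨ h = -1) →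
  (∀ y ∈ Y, z ≤ y ∧ y < z + l ∧ ∃ g : ℤ, (g0 : ℤ) ≤ |g| ∧ y = b + h * C2 g) →
  Y.card * g0 ≤ 2 * l + 2 * g0

/-- few elements with a quadratic progression which are not rich -/
def T_FIN : Prop := ∀ (P : Par) (S : Set ℤ) (z : ℤ) (Y : Finset ℤ), P.Ok →
  (∀ y ∈ Y, z ≤ y ∧ y < z + (P.n * P.k : ℕ) ∧ Prg P S y ∧ ¬ R1 P S y) →
  300 * Y.card ≤ P.n * P.k

/-- few elements in every short interval -/
def T_CEL : Prop := ∀ (l w : ℕ) (lo : ℤ) (Y : Finset ℤ), 1 ≤ l →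
  (∀ y ∈ Y, lo ≤ y ∧ y < lo + w) →
  (∀ z : ℤ, 300 * (Y.filter (fun y => z ≤ y ∧ y < z + l)).card ≤ l) →
  300 * Y.card ≤ w + l

/-- number of subsets of `U` with few elements in `J` -/
def T_BIN : Prop := ∀ (U J : Finset ℤ), J ⊆ U →
  (U.powerset.filter (fun S => 100 * (S ∩ J).card ≤ J.card)).card * 2 ^ (J.card / 2) ≤ 2 ^ U.card

/-- number of subsets of `U` which miss `J` -/
def T_MIS : Prop := ∀ (U J : Finset ℤ), J ⊆ U →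
  (U.powerset.filter (fun S => Disjoint S J)).card * 2 ^ J.card = 2 ^ U.card

/-- number of sets which contain `r` disjoint members of a family of large sets -/
def T_RIC : Prop := ∀ (U : Finset ℤ) (F : Finset (Finset ℤ)) (t r : ℕ) (B : Finset (Finset ℤ)),
  (∀ T ∈ F, t ≤ T.card) →
  (∀ S ∈ B, S ⊆ U ∧ ∃ T : Fin r → Finset ℤ, (∀ i, T i ∈ F ∧ T i ⊆ S) ∧
    ∀ i j, i ≠ j → Disjoint (T i) (T j)) →
  B.card * 2 ^ (t * r) ≤ F.card ^ r * 2 ^ U.card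

/-- size of the family of unions of progressions -/
def T_FAP : Prop := ∀ (s x M : ℕ), 2 ≤ x → ∃ F : Finset (Finset ℤ),
  (∀ T ∈ TP s x, T ⊆ Finset.Icc (0 : ℤ) M → T ∈ F) ∧ F.card ≤ (3 * (2 * M + 1) ^ 2) ^ s

/-- size of the family of sets of sums -/
def T_FAA : Prop := ∀ (p M : ℕ), 1 ≤ p → ∃ F : Finset (Finset ℤ),
  (∀ T ∈ TA p, T ⊆ Finset.Icc (0 : ℤ) M → T ∈ F) ∧
    F.card ≤ (3 * (p + 1) * (2 * M + 1)) ^ (2 * p + 1)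

/-- a separated subset -/
def T_SEP : Prop := ∀ (Y : Finset ℤ) (L : ℕ), ∃ Y' ⊆ Y, (∀ y ∈ Y', ∀ z ∈ Y', y ≠ z →
  (L : ℤ) < |y - z|) ∧ Y.card ≤ Y'.card * (2 * L + 1)

/-- the middle interval as a finite set -/
noncomputable def Jset (k : ℕ) : Finset ℤ := Finset.Icc ((22 * (k : ℤ) ^ 2 + 99) / 100) (28 * (k : ℤ) ^ 2 / 100)

/-- the inequalities between the parameters used in the counting part -/
structure GOk (P : Par) : Prop where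
  c1 : ∃ c : ℕ, (3 * (2 * P.k.choose 2 + 1) ^ 2) ^ P.nu + (3 * (2 * P.k.choose 2 + 1) ^ 2) ^ P.d +
    (3 * (P.p + 1) * (2 * P.k.choose 2 + 1)) ^ (2 * P.p + 1) ≤ 2 ^ c ∧
    P.D + 4 + c * ((Jset P.k).card / (400 * (4 * P.L1 + 1))) ≤
      P.t1 * ((Jset P.k).card / (400 * (4 * P.L1 + 1)))
  c2 : ∃ c : ℕ, 3 * (2 * P.k.choose 2 + 1) ^ 2 ≤ 2 ^ c ∧
    P.D + 4 + c * ((Jset P.k).card / (400 * (4 * P.L2 + 1))) ≤
      P.t2 * ((Jset P.k).card / (400 * (4 * P.L2 + 1)))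
  J1 : 2 * (P.D + 4) + 1 ≤ (Jset P.k).card
  J2 : 4 * (P.n * P.k) + 4 < (Jset P.k).card
  DM : 2 * P.D + 10 ≤ P.k.choose 2

/-- typical sets are not spectra -/
def T_TYP : Prop := ∀ (P : Par) (S : Finset ℤ) (N : ℕ) (G : SimpleGraph (Fin N)), P.Ok → GOk P →
  (∀ z, z ∈ SS P.k G ↔ z ∈ S) → (Jset P.k).card < 100 * (S ∩ Jset P.k).card →
  (∃ z ∈ S, z ≤ P.D + 3) → (∃ z ∈ S, C2 P.k - (P.D + 3) ≤ z) →
  (∃ Y ⊆ S ∩ Jset P.k, (Jset P.k).card < 400 * Y.card ∧ ∀ y ∈ Y, R1 P (SS P.k G) y) ∨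
  (∃ Y ⊆ S ∩ Jset P.k, (Jset P.k).card < 400 * Y.card ∧ ∀ y ∈ Y, R2 P (SS P.k G) y)

/-- the spectra as finite sets of integers -/
def T_TRA : Prop := ∀ (k : ℕ) (B : Finset (Finset ℤ)),
  (∀ (S : Finset ℤ) (N : ℕ) (G : SimpleGraph (Fin N)), k ≤ N → (∀ z, z ∈ SS k G ↔ z ∈ S) →
    S ∈ B) → nk k ≤ B.card

/-- the counting part -/
def T_CNT : Prop := ∀ (P : Par), P.Ok → GOk P → nk P.k ≤ 2 ^ (P.k.choose 2 - P.D)

/-- the parameters -/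
def T_NUM : Prop := ∃ k0 : ℕ, ∀ k ≥ k0, ∃ P : Par, P.Ok ∧ GOk P ∧ P.k = k ∧
  (k : ℝ) ^ (13 / 12 : ℝ) ≤ (P.D : ℝ)

end Pool.Agent.H47.KS
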